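import Pool.Agent.Helper47.TWR.Chr

/-!
Sheet TW (MP_7a8f48_an), row PLJ: no crossing.
-/

set_option linter.unusedSectionVars false

open MeasureTheory Filter Topology Finset
open scoped ComplexConjugate

namespace Pool.Agent.Helper47.TWR

open Pool.Agent.Helper16.AZ (T mm)
open Pool.Agent.Helper98.TW

variable {N : ℕ} {lev : Fin N → ℕ}

/-- the characters of level `j` of the second coordinate -/
def C2 (lev : Fin N → ℕ) (j : ℕ) : Set (T N × T N → ℂ) :=
  (fun (φ : T N → ℂ) (z : T N × T N) => φ z.2) '' CH lev j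

theorem b1_succ (hA : ST_ALS) (j : ℕ) : B1 lev (j + 1) = jo (B1 lev j) (sg (C2 lev j)) := by
  unfold B1 C2
  rw [(hA N lev).2.1 j, cm_jo, cm_sg]

theorem c2_grp {κ : Measure (T N × T N)} (hA : ST_ALS) (j : ℕ) : Grp κ (C2 lev j) := by
  obtain ⟨h1, h2, h3, h4⟩ := (hA N lev).2.2.2.2.2.1 j
  refine ⟨?_, ⟨_, h2, rfl⟩, ?_, ?_⟩
  · rintro _ ⟨φ, hφ, rfl⟩
    obtain ⟨a, ha, rfl⟩ := hφ
    exact ⟨(ex_measurable a).comp measurable_snd, Eventually.of_forall fun z => ex_norm a z.2⟩
  · rintro _ ⟨φ, hφ, rfl⟩ _ ⟨ψ, hψ, rfl⟩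
    exact ⟨_, h3 φ hφ ψ hψ, rfl⟩
  · rintro _ ⟨φ, hφ, rfl⟩
    exact ⟨_, h4 φ hφ, rfl⟩

theorem inc_snd {f : Fin N → T N → U} {p q : ℕ} {κ : Measure (T N × T N)} (hT : Tow lev f)
    (hJ : JN f p q κ) {j : ℕ} {b : Fin N → ℤ} (hb : la lev j b) (𝒜 : SA (T N × T N)) :
    Inc κ (jo 𝒜 (B1 lev j)) (Prod.map (SS f)^[p] (SS f)^[q]) (fun z => ex b z.2) :=
  am_jo_right (am_comp_mp (jn_snd hJ) (inc_am hT hb q))

theorem inc_fst {f : Fin N → T N → U} {p q : ℕ} {κ : Measure (T N × T N)} (hT : Tow lev f)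
    (hJ : JN f p q κ) {j : ℕ} {b : Fin N → ℤ} (hb : la lev j b) (𝒜 : SA (T N × T N)) :
    Inc κ (jo (A1 lev j) 𝒜) (Prod.map (SS f)^[p] (SS f)^[q]) (fun z => ex b z.1) :=
  am_jo_left (am_comp_mp (jn_fst hJ) (inc_am hT hb p))

theorem plj_zero (hALS : ST_ALS) (hCHZ : ST_CHZ) (hPFC : ST_PFC) {f : Fin N → T N → U} {p q : ℕ}
    {κ : Measure (T N × T N)} (hJN : JN f p q κ) (l : ℕ) {a : Fin N → ℤ} (ha : a ≠ 0)
    (hla : la lev l a) : ¬ AM κ (jo (A1 lev l) (B1 lev 0)) (fun z => ex a z.1) := by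
  intro hAM
  have := hJN.prob
  have h0 : B1 lev 0 = (bo : SA (T N × T N)) := by
    unfold B1
    rw [(hALS N lev).1, cm_bo]
  rw [h0, jo_bo'] at hAM
  have hL : Lm (AL lev l) := (hALS N lev).2.2.1 l
  have h1 : AM (mm N) (AL lev l) (ex a) :=
    ((hPFC (T N × T N) (T N) κ (mm N) Prod.fst (AL lev l) (jn_fst hJN) hL).2.1 (ex a)
      (ex_measurable a).aestronglyMeasurable).1 hAM
  have hint : Integrable (fun x => ex a x * (1 : ℂ)) (mm N) := by
    refine Integrable.of_bound (((ex_measurable a).mul_const 1).aestronglyMeasurable) 1 ?_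
    exact Eventually.of_forall fun x => by rw [norm_mul, ex_norm, norm_one, one_mul]
  have h2 := hCHZ N lev l a ha hla (fun _ => 1) (integrable_const 1) (am_const 1)
  have h3 : (mm N)[fun x => ex a x * (1 : ℂ)|AL lev l] =ᵐ[mm N] fun x => ex a x * (1 : ℂ) :=
    condExp_of_aestronglyMeasurable' hL (am_mul h1 (am_const 1)) hint
  have h4 : ∀ᵐ x ∂(mm N), False := by
    filter_upwards [h2, h3] with x hx hx'
    rw [hx] at hx'
    have h5 : ‖ex a x‖ = 0 := by
      rw [mul_one] at hx'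
      rw [← hx']
      simp
    rw [ex_norm] at h5
    exact one_ne_zero h5
  simp at h4
  exact (IsProbabilityMeasure.ne_zero (mm N)) h4

theorem st_PLJ (hTRM : ST_TRM) (hVIN : ST_VIN) (hPST : ST_PST) (hLT : ST_LT) (hALS : ST_ALS)
    (hCHZ : ST_CHZ) (hPFC : ST_PFC) : ST_PLJ := by
  intro N lev f f' p q κ hTI hMR hEG hNU hp hq hJN l
  induction l with
  | zero => 
    intro a ha hla j hj
    obtain rfl : j = 0 := by omega
    exact plj_zero hALS hCHZ hPFC hJN 0 ha hla
  | succ k ih =>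
    intro a ha hla j
    induction j with
    | zero => exact fun _ => plj_zero hALS hCHZ hPFC hJN (k + 1) ha hla
    | succ j ihj =>
      intro hj hAM
      have := hJN.prob
      obtain ⟨hP', hsys', herg', hsys, hIA, hjo⟩ := hTRM N lev f f' p q κ hTI hJN (k + 1) j
      rw [b1_succ hALS, jo_assoc'] at hAM
      obtain ⟨φ, ⟨_, ⟨b, hb, rfl⟩, rfl⟩, hc⟩ := hLT (T N × T N) κ
        (Prod.map (SS f)^[p] (SS f)^[q]) (Prod.map (SS f')^[p] (SS f')^[q])
        (jo (A1 lev (k + 1)) (B1 lev j)) (C2 lev j) (fun z => ex a z.1) hsys hJN.erg hIA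
        (c2_grp hALS j) (by
          rintro _ ⟨_, ⟨b, hb, rfl⟩, rfl⟩
          exact inc_snd hTI.t hJN hb _)
        ((ex_uf a (mm N)).comp (jn_fst hJN)) hAM (inc_fst hTI.t hJN hla _)
      have hV : Act (κ.map (trp lev (k + 1) j)) (Vp lev k) :=
        hVIN N lev f f' p q κ hTI hJN k j fun d hd hld => ih d hd hld j (by omega)
      rw [hjo] at hc
      obtain ⟨G, hG, hcG⟩ := am_iff.1 hc
      have hGm : Measurable G := hG.mono (Helper99.TWR.trp_measurable (k + 1) j).comap_le le_rfl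
      obtain ⟨H, hH, hGH⟩ : ∃ H : T N × T N → ℂ, Measurable H ∧ G = H ∘ trp lev (k + 1) j :=
        hG.exists_eq_measurable_comp
      have hGt : ∀ z, G (trp lev (k + 1) j z) = G z := fun z => by
        rw [hGH, Function.comp_apply, Helper99.TWR.trp_trp, Function.comp_apply]
      have htm := Helper99.TWR.trp_measurable (lev := lev) (N := N) (k + 1) j
      have hTm := Helper99.TWR.TT_measurable hTI.t p q
      have hSm := Helper99.TWR.SS_measurable hTI.t
      have hUF : UF (κ.map (trp lev (k + 1) j)) G := by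
        refine ⟨hGm, ?_⟩
        rw [ae_map_iff htm.aemeasurable (measurableSet_eq_fun hGm.norm measurable_const)]
        filter_upwards [hcG] with z hz
        rw [hGt, ← hz, norm_mul, RCLike.norm_conj, ex_norm, ex_norm, one_mul]
      let w : T N → ℂ := fun x => conj (ex b ((SS f)^[q] x) * conj (ex b x))
      have hwm : Measurable w := Complex.continuous_conj.measurable.comp
        (((ex_measurable b).comp (hSm.iterate q)).mul
          (Complex.continuous_conj.measurable.comp (ex_measurable b)))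
      obtain ⟨g, hg, hgA, hgI⟩ := hPST N lev f f' p q κ hTI hJN hp hq k j a hV hla G w hUF hwm (by
        have hms : MeasurableSet {z : T N × T N | G (trp lev (k + 1) j
            (Prod.map (SS f)^[p] (SS f)^[q] z)) * conj (G z) =
            ex a ((SS f)^[p] z.1) * conj (ex a z.1) * w z.2} := by
          refine measurableSet_eq_fun ((hGm.comp (htm.comp hTm)).mul
            (Complex.continuous_conj.measurable.comp hGm)) ?_
          exact ((((ex_measurable a).comp (hSm.iterate p)).comp measurable_fst).mul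
            (Complex.continuous_conj.measurable.comp
              ((ex_measurable a).comp measurable_fst))).mul (hwm.comp measurable_snd)
        rw [ae_map_iff htm.aemeasurable hms]
        filter_upwards [hcG, ae_comp hsys.mp hcG] with z hz hz'
        rw [Helper99.TWR.trp_TT hTI.t, hGt, hGt, ← hz, ← hz']
        change _ = ex a ((SS f)^[p] (tr lev (k + 1) z.1)) * conj (ex a (tr lev (k + 1) z.1)) *
          conj (ex b ((SS f)^[q] (tr lev j z.2)) * conj (ex b (tr lev j z.2)))
        rw [inc_tr hTI.t hla, inc_tr hTI.t hb]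
        simp only [map_mul, Complex.conj_conj, Prod.map]
        ring)
      exact hNU p hp k a ha hla g hg hgA hgI

end Pool.Agent.Helper47.TWR
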