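import Pool.Agent.Helper99.TWR.TRM

/-!
Sheet TW (MP_7a8f48_an): characters of the torus and their increments along a tower.
-/

set_option linter.unusedSectionVars false

open MeasureTheory Filter Topology Finset
open scoped ComplexConjugate

namespace Pool.Agent.Helper47.TWR

open Pool.Agent.Helper16.AZ (T mm)
open Pool.Agent.Helper98.TW
open UnitAddTorus (mFourier)

variable {N : ℕ} {lev : Fin N → ℕ}

theorem ex_def (a : Fin N → ℤ) (x : T N) : ex a x = ∏ i, fourier (a i) (x i) := rfl

theorem fourier_add_arg (n : ℤ) (x y : U) :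
    (fourier n (x + y) : ℂ) = fourier n x * fourier n y := by
  simp only [fourier_apply, zsmul_add, AddCircle.toCircle_add, Circle.coe_mul]

theorem ex_add_arg (a : Fin N → ℤ) (x y : T N) : ex a (x + y) = ex a x * ex a y := by
  simp only [ex_def, Pi.add_apply, fourier_add_arg, Finset.prod_mul_distrib]

theorem ex_norm (a : Fin N → ℤ) (x : T N) : ‖ex a x‖ = 1 := by
  rw [ex_def, norm_prod]
  exact Finset.prod_eq_one fun i _ => by rw [fourier_apply, Circle.norm_coe]

theorem ex_mul_conj (a : Fin N → ℤ) (x : T N) : ex a x * conj (ex a x) = 1 := by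
  rw [Complex.mul_conj, Complex.normSq_eq_norm_sq, ex_norm]
  simp

theorem ex_measurable (a : Fin N → ℤ) : Measurable (ex a) :=
  ((mFourier a).continuous).measurable

theorem ex_sub (a b : Fin N → ℤ) (x : T N) : ex (a - b) x = ex a x * conj (ex b x) := by
  have h : ∀ i, (fourier (b i) (x i) : ℂ) * conj (fourier (b i) (x i) : ℂ) = 1 := fun i => by
    rw [Complex.mul_conj, Complex.normSq_eq_norm_sq, fourier_apply, Circle.norm_coe]
    simp
  simp only [ex_def, map_prod]
  rw [← Finset.prod_mul_distrib]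
  refine Finset.prod_congr rfl fun i _ => ?_
  have h1 : (fourier (a i) (x i) : ℂ) = fourier (a i - b i) (x i) * fourier (b i) (x i) := by
    rw [← fourier_add, sub_add_cancel]
  rw [h1, mul_assoc, h i, mul_one]
  rfl

/-- the character of the cocycle -/
theorem ex_SS (f : Fin N → T N → U) (a : Fin N → ℤ) (x : T N) :
    ex a (SS f x) = ex a x * ex a (fun i => f i x) :=
  ex_add_arg a x fun i => f i x

theorem ex_f_tr {f : Fin N → T N → U} (hf : Tow lev f) {l : ℕ} {a : Fin N → ℤ} (ha : la lev l a)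
    (x : T N) : ex a (fun i => f i (tr lev l x)) = ex a (fun i => f i x) := by
  simp only [ex_def]
  refine Finset.prod_congr rfl fun i _ => ?_
  by_cases h : a i = 0
  · rw [h, fourier_zero, fourier_zero]
  · have := ha i h
    subst this
    rw [hf.dep]

/-- the increments of the characters of level `l` depend only on the levels `< l` -/
theorem inc_tr {f : Fin N → T N → U} (hf : Tow lev f) {l : ℕ} {a : Fin N → ℤ} (ha : la lev l a)
    (m : ℕ) (x : T N) : ex a ((SS f)^[m] (tr lev l x)) * conj (ex a (tr lev l x)) =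
      ex a ((SS f)^[m] x) * conj (ex a x) := by
  induction m with
  | zero => simp only [Function.iterate_zero, id_eq, ex_mul_conj]
  | succ m ih =>
    have key : ∀ y z : T N, ex a (SS f y) * conj (ex a z) =
        ex a (fun i => f i (tr lev l y)) * (ex a y * conj (ex a z)) := by
      intro y z
      rw [ex_SS, ex_f_tr hf ha]
      ring
    rw [Function.iterate_succ_apply', Function.iterate_succ_apply', key, key, ih,
      Helper99.TWR.tr_iter hf]

/-- the increments of characters of level `l` are in the sigma algebra of the levels `< l` -/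
theorem inc_am {f : Fin N → T N → U} (hf : Tow lev f) {l : ℕ} {a : Fin N → ℤ} (ha : la lev l a)
    (m : ℕ) {μ : Measure (T N)} : Inc μ (AL lev l) (SS f)^[m] (ex a) := by
  unfold Inc
  have h : (fun x => ex a ((SS f)^[m] x) * conj (ex a x)) =
      (fun x => ex a ((SS f)^[m] x) * conj (ex a x)) ∘ tr lev l :=
    funext fun x => (inc_tr hf ha m x).symm
  rw [h]
  apply am_of
  refine Measurable.comp ?_ (comap_measurable (tr lev l))
  exact ((ex_measurable a).comp ((Helper99.TWR.SS_measurable hf).iterate m)).mul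
    (Complex.continuous_conj.measurable.comp (ex_measurable a))

theorem ex_uf (a : Fin N → ℤ) (μ : Measure (T N)) : UF μ (ex a) :=
  ⟨ex_measurable a, Eventually.of_forall (ex_norm a)⟩

/-- transport of `AM` along measure preserving maps -/
theorem am_comp_mp {Ω Ω' : Type} [MeasurableSpace Ω] [MeasurableSpace Ω'] {μ : Measure Ω}
    {μ' : Measure Ω'} {π : Ω → Ω'} (h : MeasurePreserving π μ μ') {𝒜 : SA Ω'} {F : Ω' → ℂ}
    (hF : AM μ' 𝒜 F) : AM μ (cm π 𝒜) (fun x => F (π x)) := by
  obtain ⟨G, hG, hFG⟩ := am_iff.1 hF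
  refine am_iff.2 ⟨fun x => G (π x), ?_, h.quasiMeasurePreserving.ae hFG⟩
  exact Measurable.comp hG (comap_measurable π)

theorem jn_fst {f : Fin N → T N → U} {p q : ℕ} {κ : Measure (T N × T N)} (h : JN f p q κ) :
    MeasurePreserving Prod.fst κ (mm N) := ⟨measurable_fst, h.fst⟩

theorem jn_snd {f : Fin N → T N → U} {p q : ℕ} {κ : Measure (T N × T N)} (h : JN f p q κ) :
    MeasurePreserving Prod.snd κ (mm N) := ⟨measurable_snd, h.snd⟩

theorem cm_jo {Ω Ω' : Type} (g : Ω → Ω') (𝒜 ℬ : SA Ω') : cm g (jo 𝒜 ℬ) = jo (cm g 𝒜) (cm g ℬ) :=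
  MeasurableSpace.comap_sup

theorem cm_sg {Ω Ω' : Type} (g : Ω → Ω') (Φ : Set (Ω' → ℂ)) :
    cm g (sg Φ) = sg ((fun φ x => φ (g x)) '' Φ) := by
  unfold cm sg
  change MeasurableSpace.comap g (⨆ φ ∈ Φ, MeasurableSpace.comap φ inferInstance) =
    ⨆ φ ∈ (fun (φ : Ω' → ℂ) x => φ (g x)) '' Φ, MeasurableSpace.comap φ inferInstance
  rw [iSup_image]
  simp only [MeasurableSpace.comap_iSup, MeasurableSpace.comap_comp]
  rfl

theorem jo_assoc' {Ω : Type} (𝒜 ℬ 𝒞 : SA Ω) : jo 𝒜 (jo ℬ 𝒞) = jo (jo 𝒜 ℬ) 𝒞 :=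
  (sup_assoc (α := MeasurableSpace Ω) 𝒜 ℬ 𝒞).symm

theorem jo_bo' {Ω : Type} (𝒜 : SA Ω) : jo 𝒜 bo = 𝒜 := sup_bot_eq (α := MeasurableSpace Ω) 𝒜

theorem cm_bo {Ω Ω' : Type} (g : Ω → Ω') : cm g (bo : SA Ω') = bo := MeasurableSpace.comap_bot

end Pool.Agent.Helper47.TWR
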